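import Pool.Agent.NH72.PSD.Main

/-!
# Vertices and facets of polytopes whose slack matrix is congruent to its support modulo four

A `d`-polytope has at most `2 ^ d` vertices and at most `2 ^ d` facets if some matrix of rank at most
`d + 1` with the zero pattern of its slack matrix has all its nonzero entries congruent to one modulo
four (in a subring of the reals with a homomorphism to `ℤ/4`). This covers the psd-minimal polytopes
whose slack matrix is, up to scaling, the matrix of squares of a matrix with odd nonzero entries, and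
the morally 2-level polytopes.
-/

set_option autoImplicit false

namespace Pool.Agent.Results.MP_d7e3e4_co.CongruentToOneModFour

open Matrix Module

/-- The face of `conv (v 0, …, v (n - 1))` in the hyperplane `a j · x = b j`. -/
def face {d n f : ℕ} (v : Fin n → Fin d → ℝ) (a : Fin f → Fin d → ℝ) (b : Fin f → ℝ)
    (j : Fin f) : Set (Fin d → ℝ) :=
  {x | x ∈ convexHull ℝ (Set.range v) ∧ a j ⬝ᵥ x = b j}

/-- `conv (v 0, …, v (n - 1)) ⊆ ℝ^d` is a `d`-dimensional polytope with the `n` vertices `v i` and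
the `f` facets given by the inequalities `a j · x ≤ b j`. -/
structure IsPolytope {d n f : ℕ} (v : Fin n → Fin d → ℝ) (a : Fin f → Fin d → ℝ)
    (b : Fin f → ℝ) : Prop where
  /-- the inequalities describe the polytope -/
  hull : ∀ x : Fin d → ℝ, (∀ j, a j ⬝ᵥ x ≤ b j) ↔ x ∈ convexHull ℝ (Set.range v)
  /-- it is `d`-dimensional -/
  full : affineSpan ℝ (Set.range v) = ⊤
  /-- the `v i` are pairwise different -/
  injective : Function.Injective v
  /-- the `v i` are vertices -/
  vertex : ∀ i, v i ∈ (convexHull ℝ (Set.range v)).extremePoints ℝ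
  /-- every inequality defines a face of dimension `d - 1` -/
  facet : ∀ j, (face v a b j).Nonempty ∧ finrank ℝ (vectorSpan ℝ (face v a b j)) + 1 = d
  /-- different inequalities define different facets -/
  facet_injective : Function.Injective (face v a b)

open Pool.Agent.NH72.PSD in
theorem facetData {d n f : ℕ} {v : Fin n → Fin d → ℝ} {a : Fin f → Fin d → ℝ} {b : Fin f → ℝ}
    (h : IsPolytope v a b) : FacetData v a b := by
  classical
  have hP : Poly v a b :=
    { hull := fun x => by
        rw [← h.hull x]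
        simp only [sl, sub_nonneg]
      vinj := h.injective
      vert := h.vertex }
  have hsl : ∀ j x, sl a b j x = 0 ↔ a j ⬝ᵥ x = b j := fun j x => by
    unfold sl
    rw [sub_eq_zero]
    exact eq_comm
  have hsup : ∀ j x, x ∈ face v a b j → ∃ w : Fin n → ℝ, (∀ i, 0 ≤ w i) ∧ ∑ i, w i = 1 ∧
      ∑ i, w i • v i = x ∧ ∀ i, w i ≠ 0 → sl a b j (v i) = 0 := by
    intro j x hx
    obtain ⟨w, h0, h1, h2⟩ := exists_weights v x hx.1
    refine ⟨w, h0, h1, h2, fun i hi => hP.support j w h0 h1 ?_ i hi⟩
    rw [h2, hsl]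
    exact hx.2
  have hspan : ∀ j, vectorSpan ℝ (face v a b j) = W v {i | sl a b j (v i) = 0} := by
    intro j
    refine le_antisymm ?_ ?_
    · unfold vectorSpan
      rw [Submodule.span_le]
      rintro _ ⟨x, hx, y, hy, rfl⟩
      obtain ⟨w, h0, h1, h2, h3⟩ := hsup j x hx
      obtain ⟨w', h0', h1', h2', h3'⟩ := hsup j y hy
      obtain ⟨i0, hi0⟩ : ∃ i0, w i0 ≠ 0 := by
        by_contra hcon
        push Not at hcon
        rw [Finset.sum_eq_zero (fun i _ => hcon i)] at h1
        exact zero_ne_one h1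
      have := comb_mem (v := v) (D := {i | sl a b j (v i) = 0}) w w' h3 h3' h1 h1' i0 (h3 i0 hi0)
      rw [h2, h2'] at this
      exact this
    · unfold W
      refine vectorSpan_mono ℝ ?_
      rintro _ ⟨i, hi, rfl⟩
      exact ⟨subset_convexHull ℝ _ ⟨i, rfl⟩, (hsl j _).1 hi⟩
  refine { hP with full := ?_, ne := ?_, dim := ?_, inj := ?_ }
  · unfold W
    rw [Set.image_univ, ← direction_affineSpan, h.full, AffineSubspace.direction_top, finrank_top]
    simp
  · intro j
    obtain ⟨x, hx⟩ := (h.facet j).1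
    obtain ⟨w, h0, h1, h2, h3⟩ := hsup j x hx
    by_contra hcon
    push Not at hcon
    have : ∀ i, w i = 0 := fun i => by
      by_contra hi
      exact hcon i (h3 i hi)
    rw [Finset.sum_eq_zero (fun i _ => this i)] at h1
    exact zero_ne_one h1
  · intro j
    rw [← hspan]
    exact (h.facet j).2
  · intro j j' hjj
    apply h.facet_injective
    have key : ∀ j j' : Fin f, (∀ i, sl a b j (v i) = 0 → sl a b j' (v i) = 0) →
        face v a b j ⊆ face v a b j' := by
      intro j j' hjj x hx
      obtain ⟨w, h0, h1, h2, h3⟩ := hsup j x hx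
      refine ⟨hx.1, (hsl j' x).1 ?_⟩
      rw [← h2, sl_sum a b j' v w h1]
      refine Finset.sum_eq_zero fun i _ => ?_
      by_cases hi : w i = 0
      · rw [hi, zero_mul]
      · rw [hjj i (h3 i hi), mul_zero]
    exact Set.Subset.antisymm (key j j' fun i => (hjj i).1) (key j' j fun i => (hjj i).2)

open Pool.Agent.NH72.PSD in
theorem slack_eq_zero {d f : ℕ} (a : Fin f → Fin d → ℝ) (b : Fin f → ℝ) (j : Fin f)
    (x : Fin d → ℝ) : sl a b j x = 0 ↔ a j ⬝ᵥ x = b j := by
  unfold sl
  rw [sub_eq_zero]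
  exact eq_comm

/-- Let `P` be a `d`-polytope, `d ≥ 1`, with the vertices `v i` (`n` of them) and the facet
inequalities `a j · x ≤ b j` (`f` of them).  Suppose that there are a subring `R` of `ℝ` with a ring
homomorphism `φ : R → ℤ/4` and a real matrix `T` of rank at most `d + 1` which has zeros exactly
where the slack matrix of `P` has zeros, and whose other entries are in `R` and are mapped to `1` by
`φ`.  Then `P` has at most `2 ^ d` vertices and at most `2 ^ d` facets. -/
theorem result (d n f : ℕ) (hd : 1 ≤ d) (v : Fin n → Fin d → ℝ) (a : Fin f → Fin d → ℝ)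
    (b : Fin f → ℝ) (h : IsPolytope v a b) (R : Subring ℝ) (φ : R →+* ZMod 4)
    (T : Matrix (Fin n) (Fin f) ℝ) (hrank : T.rank ≤ d + 1)
    (hzero : ∀ i j, T i j = 0 ↔ a j ⬝ᵥ v i = b j)
    (hone : ∀ i j, T i j ≠ 0 → ∃ hm : T i j ∈ R, φ ⟨T i j, hm⟩ = 1) :
    n ≤ 2 ^ d ∧ f ≤ 2 ^ d :=
  Pool.Agent.NH72.PSD.main hd (facetData h) R φ T
    (fun i j => by rw [slack_eq_zero]; exact hzero i j) hone hrank

/-- The integers, as a subring of the real numbers. -/
noncomputable def intEquiv : ℤ ≃+* (Int.castRingHom ℝ).range :=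
  RingEquiv.ofBijective (Int.castRingHom ℝ).rangeRestrict
    ⟨fun x y h => by
      have := congrArg Subtype.val h
      exact Int.cast_injective this, (Int.castRingHom ℝ).rangeRestrict_surjective⟩

/-- Special case: the slack matrix itself, scaled such that its entries are squares of elements
of `R` which `φ` maps to units (for `R = ℤ`: squares of odd integers). -/
theorem odd_squares (d n f : ℕ) (hd : 1 ≤ d) (v : Fin n → Fin d → ℝ) (a : Fin f → Fin d → ℝ)
    (b : Fin f → ℝ) (h : IsPolytope v a b) (R : Subring ℝ) (φ : R →+* ZMod 4)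
    (r : Fin n → ℝ) (c : Fin f → ℝ) (hr : ∀ i, r i ≠ 0) (hc : ∀ j, c j ≠ 0)
    (hu : ∀ i j, a j ⬝ᵥ v i ≠ b j →
      ∃ u : R, IsUnit (φ u) ∧ (u : ℝ) ^ 2 = r i * c j * (b j - a j ⬝ᵥ v i)) :
    n ≤ 2 ^ d ∧ f ≤ 2 ^ d := by
  have hsq : ∀ x : ZMod 4, IsUnit x → x ^ 2 = 1 := by decide
  refine result d n f hd v a b h R φ
    (Matrix.of fun i j => r i * c j * Pool.Agent.NH72.PSD.sl a b j (v i))
    (Pool.Agent.NH72.PSD.rank_slack v a b r c) ?_ ?_
  · intro i j
    simp only [Matrix.of_apply, mul_eq_zero, hr i, hc j, false_or, slack_eq_zero]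
  · intro i j hij
    simp only [Matrix.of_apply, ne_eq, mul_eq_zero, hr i, hc j, false_or, slack_eq_zero] at hij
    obtain ⟨u, hu1, hu2⟩ := hu i j hij
    have hval : (Matrix.of fun i j => r i * c j * Pool.Agent.NH72.PSD.sl a b j (v i)) i j
        = ((u ^ 2 : R) : ℝ) := by
      simp only [Matrix.of_apply, Pool.Agent.NH72.PSD.sl]
      rw [← hu2]
      rfl
    refine ⟨by rw [hval]; exact (u ^ 2).2, ?_⟩
    have : (⟨(Matrix.of fun i j => r i * c j * Pool.Agent.NH72.PSD.sl a b j (v i)) i j,
        by rw [hval]; exact (u ^ 2).2⟩ : R) = u ^ 2 := Subtype.ext hval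
    rw [this, map_pow]
    exact hsq _ hu1

open Classical in
/-- Special case: morally 2-level polytopes (the 0/1 matrix of the support of the slack matrix has
rank at most `d + 1`). -/
theorem morally_two_level (d n f : ℕ) (hd : 1 ≤ d) (v : Fin n → Fin d → ℝ)
    (a : Fin f → Fin d → ℝ) (b : Fin f → ℝ) (h : IsPolytope v a b)
    (hT : (Matrix.of fun i j => if a j ⬝ᵥ v i = b j then 0 else 1 :
      Matrix (Fin n) (Fin f) ℝ).rank ≤ d + 1) : n ≤ 2 ^ d ∧ f ≤ 2 ^ d := by
  refine result d n f hd v a b h (Int.castRingHom ℝ).range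
    ((Int.castRingHom (ZMod 4)).comp intEquiv.symm.toRingHom) _ hT ?_ ?_
  · intro i j
    simp only [Matrix.of_apply]
    split_ifs with hz
    · simp [hz]
    · simp [hz]
  · intro i j hij
    simp only [Matrix.of_apply] at hij ⊢
    split_ifs at hij ⊢ with hz
    · exact absurd rfl hij
    · refine ⟨⟨1, by simp⟩, ?_⟩
      have : (⟨(1 : ℝ), ⟨1, by simp⟩⟩ : (Int.castRingHom ℝ).range) = 1 := rfl
      rw [this, map_one]

end Pool.Agent.Results.MP_d7e3e4_co.CongruentToOneModFour
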